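import Pool.Agent.H52.PH.Defs

/-! Morrey's lemma in the plane (job C of MP_6c6114_an). -/

open MeasureTheory Set Metric Filter Topology ContDiff Complex
open scoped ENNReal Pointwise

namespace Pool.Agent.H80.PH

open Pool.Agent.H52.PH

variable {E : Type*} [NormedAddCommGroup E] [NormedSpace ℝ E]

/-- Integral over the unit ball of the rescaled function. -/
noncomputable def Fm (f : ℂ → E) (y : ℂ) (r : ℝ) : E :=
  ∫ w in closedBall (0 : ℂ) 1, f (y + r • w)

lemma Fm_eq (f : ℂ → E) (y : ℂ) {r : ℝ} (hr : 0 < r) :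
    Fm f y r = (r ^ 2)⁻¹ • ∫ z in closedBall y r, f z := by
  unfold Fm
  rw [Measure.setIntegral_comp_smul_of_pos volume (fun z => f (y + z)) (closedBall 0 1) hr]
  have h1 : r • closedBall (0 : ℂ) 1 = closedBall 0 r := by
    rw [_root_.smul_closedBall _ _ zero_le_one, smul_zero, mul_one, Real.norm_of_nonneg hr.le]
  have h2 : ∫ z in closedBall (0 : ℂ) r, f (y + z) = ∫ z in closedBall y r, f z := by
    have := (measurePreserving_add_left (volume : Measure ℂ) y).setIntegral_preimage_emb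
      (measurableEmbedding_addLeft y) f (closedBall y r)
    rw [← this]
    congr 2
    ext z
    simp [mem_closedBall, dist_eq_norm]
  rw [h1, h2, Complex.finrank_real_complex]

omit [NormedSpace ℝ E] in
lemma integrableOn_cont {f : ℂ → E} (hf : Continuous f) {K : Set ℂ} (hK : IsCompact K) :
    IntegrableOn f K := hf.continuousOn.integrableOn_compact hK

lemma hasDerivAt_Fm [CompleteSpace E] {φ : ℂ → E} (hφ : ContDiff ℝ ∞ φ) (y v : ℂ) (r s t : ℝ) :
    HasDerivAt (fun t : ℝ => Fm φ (y + t • v) (r + t * s))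
      (∫ w in closedBall (0 : ℂ) 1,
        fderiv ℝ φ ((y + t • v) + (r + t * s) • w) (v + s • w)) t := by
  unfold Fm
  have hd : Differentiable ℝ φ := hφ.differentiable (by simp)
  have hcd : Continuous (fderiv ℝ φ) := hφ.continuous_fderiv (by simp)
  have hc : Continuous fun p : ℝ × ℂ =>
      fderiv ℝ φ ((y + p.1 • v) + (r + p.1 * s) • p.2) (v + s • p.2) := by
    have h1 : Continuous fun p : ℝ × ℂ => fderiv ℝ φ ((y + p.1 • v) + (r + p.1 * s) • p.2) :=
      hcd.comp (by fun_prop)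
    have h2 : Continuous fun p : ℝ × ℂ => (v + s • p.2) := by fun_prop
    exact h1.clm_apply h2
  have hcomp : IsCompact (closedBall t 1 ×ˢ closedBall (0 : ℂ) 1) :=
    (isCompact_closedBall t 1).prod (isCompact_closedBall 0 1)
  obtain ⟨C, hC⟩ := hcomp.exists_bound_of_continuousOn hc.continuousOn
  refine (hasDerivAt_integral_of_dominated_loc_of_deriv_le (μ := volume.restrict (closedBall (0:ℂ) 1))
    (F := fun (t : ℝ) (w : ℂ) => φ ((y + t • v) + (r + t * s) • w))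
    (F' := fun (t : ℝ) (w : ℂ) => fderiv ℝ φ ((y + t • v) + (r + t * s) • w) (v + s • w))
    (bound := fun _ => C) (s := ball t 1) (ball_mem_nhds t one_pos) ?_ ?_ ?_ ?_ ?_ ?_).2
  · refine Eventually.of_forall fun x => ?_
    exact (hφ.continuous.comp (by fun_prop)).aestronglyMeasurable
  · refine integrableOn_cont (hφ.continuous.comp (by fun_prop)) (isCompact_closedBall 0 1)
  · exact (hc.comp (Continuous.prodMk_right t)).aestronglyMeasurable
  · refine (ae_restrict_iff' measurableSet_closedBall).2 (Eventually.of_forall fun w hw x hx => ?_)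
    exact hC (x, w) ⟨ball_subset_closedBall hx, hw⟩
  · exact integrableOn_cont continuous_const (isCompact_closedBall 0 1)
  · refine Eventually.of_forall fun w x _ => ?_
    have h1 : HasDerivAt (fun t : ℝ => (y + t • v) + (r + t * s) • w) (v + s • w) x := by
      have ha : HasDerivAt (fun t : ℝ => y + t • v) v x := by
        simpa using ((hasDerivAt_id x).smul_const v).const_add y
      have hb : HasDerivAt (fun t : ℝ => (r + t * s) • w) (s • w) x := by
        have : HasDerivAt (fun t : ℝ => r + t * s) s x := by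
          simpa using ((hasDerivAt_id x).mul_const s).const_add r
        exact this.smul_const w
      exact ha.add hb
    exact (hd _).hasFDerivAt.comp_hasDerivAt x h1

lemma norm_Fm_sub_le [CompleteSpace E] {φ : ℂ → E} (hφ : ContDiff ℝ ∞ φ) (y₀ y₁ : ℂ) {r₀ r₁ A : ℝ}
    (h : ∀ t ∈ Icc (0 : ℝ) 1, 
      Fm (fun z => ‖fderiv ℝ φ z‖) (y₀ + t • (y₁ - y₀)) (r₀ + t * (r₁ - r₀)) ≤ A) :
    ‖Fm φ y₁ r₁ - Fm φ y₀ r₀‖ ≤ (‖y₁ - y₀‖ + |r₁ - r₀|) * A := by
  have hcd : Continuous (fderiv ℝ φ) := hφ.continuous_fderiv (by simp)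
  have key := norm_image_sub_le_of_norm_deriv_le_segment_01'
    (f := fun t : ℝ => Fm φ (y₀ + t • (y₁ - y₀)) (r₀ + t * (r₁ - r₀)))
    (f' := fun t => ∫ w in closedBall (0 : ℂ) 1,
        fderiv ℝ φ ((y₀ + t • (y₁ - y₀)) + (r₀ + t * (r₁ - r₀)) • w) ((y₁ - y₀) + (r₁ - r₀) • w))
    (C := (‖y₁ - y₀‖ + |r₁ - r₀|) * A)
    (fun t _ => (hasDerivAt_Fm hφ y₀ (y₁ - y₀) r₀ (r₁ - r₀) t).hasDerivWithinAt) ?_
  · simpa using key
  · intro t ht
    have hA := h t ⟨ht.1, ht.2.le⟩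
    calc _ ≤ ∫ w in closedBall (0 : ℂ) 1, (‖y₁ - y₀‖ + |r₁ - r₀|) *
          ‖fderiv ℝ φ ((y₀ + t • (y₁ - y₀)) + (r₀ + t * (r₁ - r₀)) • w)‖ := by
            refine norm_integral_le_of_norm_le ?_ ?_
            · exact (integrableOn_cont ((hcd.comp (by fun_prop)).norm)
                (isCompact_closedBall 0 1)).const_mul _
            · refine (ae_restrict_iff' measurableSet_closedBall).2
                (Eventually.of_forall fun w hw => ?_)
              refine (ContinuousLinearMap.le_opNorm _ _).trans ?_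
              rw [mul_comm]
              refine mul_le_mul_of_nonneg_right ?_ (norm_nonneg _)
              refine (norm_add_le _ _).trans ?_
              gcongr
              rw [norm_smul, Real.norm_eq_abs]
              have : ‖w‖ ≤ 1 := by simpa using hw
              nlinarith [abs_nonneg (r₁ - r₀), norm_nonneg w]
      _ = (‖y₁ - y₀‖ + |r₁ - r₀|) *
          Fm (fun z => ‖fderiv ℝ φ z‖) (y₀ + t • (y₁ - y₀)) (r₀ + t * (r₁ - r₀)) := by
            rw [integral_const_mul]; rfl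
      _ ≤ _ := by gcongr

lemma memLp_cont {F : Type*} [NormedAddCommGroup F] {f : ℂ → F} (hf : Continuous f)
    {K : Set ℂ} (hK : IsCompact K) : MemLp f 2 (volume.restrict K) := by
  obtain ⟨C, hC⟩ := hK.exists_bound_of_continuousOn hf.continuousOn
  have : IsFiniteMeasure (volume.restrict K) := ⟨by simpa using hK.measure_lt_top⟩
  refine MemLp.of_bound (hf.continuousOn.aestronglyMeasurable_of_isCompact hK hK.measurableSet) C ?_
  exact (ae_restrict_iff' hK.measurableSet).2 (Eventually.of_forall fun z hz => hC z hz)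

lemma memLp_of_approx {F : Type*} [NormedAddCommGroup F] {f : ℂ → F} {φ : ℕ → ℂ → F}
    {K : Set ℂ} (hK : IsCompact K) (hf : AEStronglyMeasurable f (volume.restrict K))
    (hφ : ∀ n, Continuous (φ n))
    (h : Tendsto (fun n => eLpNorm (fun z => φ n z - f z) 2 (volume.restrict K)) atTop (𝓝 0)) :
    MemLp f 2 (volume.restrict K) ∧
      Tendsto (fun n => ∫ z in K, ‖φ n z - f z‖) atTop (𝓝 0) := by
  have : IsFiniteMeasure (volume.restrict K) := ⟨by simpa using hK.measure_lt_top⟩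
  have hm : ∀ n, AEStronglyMeasurable (fun z => φ n z - f z) (volume.restrict K) := fun n =>
    (memLp_cont (hφ n) hK).1.sub hf
  constructor
  · obtain ⟨n, hn⟩ := (h.eventually (gt_mem_nhds (by simp : (0 : ℝ≥0∞) < 1))).exists
    have h1 : MemLp (fun z => φ n z - f z) 2 (volume.restrict K) :=
      ⟨hm n, hn.trans (by simp)⟩
    have h2 := (memLp_cont (hφ n) hK).sub h1
    refine h2.ae_eq (Eventually.of_forall fun z => ?_)
    simp
  · have h1 : Tendsto (fun n => eLpNorm (fun z => φ n z - f z) 1 (volume.restrict K))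
        atTop (𝓝 0) := by
      have h2 : Tendsto (fun n => eLpNorm (fun z => φ n z - f z) 2 (volume.restrict K) *
          (volume.restrict K) univ ^ (1 / (1 : ℝ≥0∞).toReal - 1 / (2 : ℝ≥0∞).toReal))
          atTop (𝓝 0) := by
        have := ENNReal.Tendsto.mul_const (b := (volume.restrict K) univ ^
          (1 / (1 : ℝ≥0∞).toReal - 1 / (2 : ℝ≥0∞).toReal)) h (Or.inr (by
            refine (ENNReal.rpow_lt_top_of_nonneg (by norm_num) (measure_ne_top _ _)).ne))
        simpa using this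
      refine tendsto_of_tendsto_of_tendsto_of_le_of_le tendsto_const_nhds h2
        (fun _ => bot_le) fun n => ?_
      exact eLpNorm_le_eLpNorm_mul_rpow_measure_univ (by norm_num) (hm n)
    have h3 := (ENNReal.tendsto_toReal (by simp : (0 : ℝ≥0∞) ≠ ⊤)).comp h1
    simp only [ENNReal.toReal_zero] at h3
    refine h3.congr fun n => ?_
    simp only [Function.comp]
    rw [eLpNorm_one_eq_lintegral_enorm, ← integral_norm_eq_lintegral_enorm (hm n)]

lemma cs_ball {F : Type*} [NormedAddCommGroup F] {f : ℂ → F} {B : Set ℂ}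
    (hB : volume B ≠ ⊤) (hf : MemLp f 2 (volume.restrict B)) :
    ∫ z in B, ‖f z‖ ≤ Real.sqrt (volume.real B) * Real.sqrt (∫ z in B, ‖f z‖ ^ 2) := by
  have hfin : IsFiniteMeasure (volume.restrict B) := ⟨by simpa using hB.lt_top⟩
  have h := integral_mul_le_Lp_mul_Lq_of_nonneg (μ := volume.restrict B)
    (Real.HolderConjugate.two_two) (f := fun _ => (1 : ℝ)) (g := fun z => ‖f z‖)
    (Eventually.of_forall fun _ => zero_le_one) (Eventually.of_forall fun _ => norm_nonneg _)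
    (by simpa using (memLp_const (1 : ℝ))) (by simpa using hf.norm)
  simp only [one_mul] at h
  refine h.trans (le_of_eq ?_)
  simp only [Real.rpow_ofNat]
  rw [← Real.sqrt_eq_rpow, ← Real.sqrt_eq_rpow]
  congr 1
  simp [Measure.real]

/-- Hypotheses of Morrey's lemma. -/
structure MH (α : ℝ) (U : Set ℂ) (g : ℂ → ℂ) (D : ℂ → ℂ →L[ℝ] ℂ) (x : ℂ) (ρ s₀ M : ℝ) : Prop where
  α0 : 0 < α
  α1 : α ≤ 1
  sob : Sob 2 U g D
  s0 : 0 < s₀
  M0 : 0 ≤ M
  sub : closedBall x (ρ + s₀) ⊆ U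
  gr : ∀ y ∈ ball x ρ, ∀ s, 0 < s → s ≤ s₀ →
        ∫ z in ball y s, ‖D z‖ ^ 2 ≤ M ^ 2 * (s / s₀) ^ (2 * α)

section core
variable {α : ℝ} {U : Set ℂ} {g : ℂ → ℂ} {D : ℂ → ℂ →L[ℝ] ℂ} {x : ℂ} {ρ s₀ M : ℝ}

lemma cball_sub {y : ℂ} (hy : y ∈ ball x ρ) {r : ℝ} (hr : r ≤ s₀) :
    closedBall y r ⊆ closedBall x (ρ + s₀) := by
  intro z hz
  rw [mem_closedBall] at *
  rw [mem_ball] at hy
  linarith [dist_triangle z y x]

lemma ball_ae_cball (y : ℂ) (s : ℝ) : (ball y s : Set ℂ) =ᵐ[volume] closedBall y s :=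
  ae_eq_of_subset_of_measure_ge ball_subset_closedBall
    (Measure.addHaar_closedBall_eq_addHaar_ball (volume : Measure ℂ) y s).le
    measurableSet_ball.nullMeasurableSet (measure_closedBall_lt_top.ne)

lemma vol_cball (y : ℂ) {s : ℝ} (hs : 0 ≤ s) : volume.real (closedBall y s) = Real.pi * s ^ 2 := by
  rw [Measure.real, Complex.volume_closedBall]
  simp [ENNReal.toReal_mul, hs, mul_comm]

lemma MH.memD (h : MH α U g D x ρ s₀ M) :
    MemLp D 2 (volume.restrict (closedBall x (ρ + s₀))) := by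
  obtain ⟨φ, h1, h2, h3⟩ := h.sob.approx _ h.sub (isCompact_closedBall _ _)
  exact (memLp_of_approx (isCompact_closedBall _ _)
    (h.sob.measD.mono_measure (Measure.restrict_mono_set _ h.sub))
    (fun n => (h1 n).continuous_fderiv (by simp)) h3).1

lemma MH.memg (h : MH α U g D x ρ s₀ M) :
    MemLp g 2 (volume.restrict (closedBall x (ρ + s₀))) := by
  obtain ⟨φ, h1, h2, h3⟩ := h.sob.approx _ h.sub (isCompact_closedBall _ _)
  exact (memLp_of_approx (isCompact_closedBall _ _)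
    (h.sob.meas.mono_measure (Measure.restrict_mono_set _ h.sub))
    (fun n => (h1 n).continuous) h2).1

lemma integrableOn_of_memLp2 {F : Type*} [NormedAddCommGroup F] {f : ℂ → F} {K : Set ℂ}
    (hK : IsCompact K) (hf : MemLp f 2 (volume.restrict K)) : IntegrableOn f K := by
  have : IsFiniteMeasure (volume.restrict K) := ⟨by simpa using hK.measure_lt_top⟩
  exact hf.integrable (by norm_num)

lemma MH.cs (h : MH α U g D x ρ s₀ M) {y : ℂ} (hy : y ∈ ball x ρ) {s : ℝ} (hs : 0 < s)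
    (hs0 : s ≤ s₀) :
    ∫ z in closedBall y s, ‖D z‖ ≤ Real.sqrt Real.pi * s * (M * (s / s₀) ^ α) := by
  have h1 := cs_ball (f := D) (B := closedBall y s) measure_closedBall_lt_top.ne
    (h.memD.mono_measure (Measure.restrict_mono_set _ (cball_sub hy hs0)))
  rw [vol_cball y hs.le, Real.sqrt_mul Real.pi_pos.le, Real.sqrt_sq hs.le] at h1
  refine h1.trans ?_
  gcongr
  have h2 := h.gr y hy s hs hs0
  rw [setIntegral_congr_set (ball_ae_cball y s)] at h2
  have hpos : 0 ≤ s / s₀ := div_nonneg hs.le h.s0.le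
  refine Real.sqrt_le_iff.2 ⟨mul_nonneg h.M0 (Real.rpow_nonneg hpos _), h2.trans (le_of_eq ?_)⟩
  rw [mul_pow, ← Real.rpow_natCast ((s / s₀) ^ α), ← Real.rpow_mul hpos]
  congr 2
  push_cast; ring

/-- monotonicity of `s⁻¹ (s / s₀) ^ α`. -/
lemma mono_aux (hα1 : α ≤ 1) (hs0 : 0 < s₀) {m s : ℝ} (hm : 0 < m) (hms : m ≤ s) :
    s⁻¹ * (s / s₀) ^ α ≤ m⁻¹ * (m / s₀) ^ α := by
  have hs : 0 < s := hm.trans_le hms
  have e : ∀ t : ℝ, 0 < t → t⁻¹ * (t / s₀) ^ α = s₀⁻¹ * (t / s₀) ^ (α - 1) := by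
    intro t ht
    rw [Real.rpow_sub_one (by positivity)]
    field_simp
  rw [e s hs, e m hm]
  refine mul_le_mul_of_nonneg_left ?_ (inv_nonneg.2 hs0.le)
  exact Real.rpow_le_rpow_of_nonpos (by positivity) (by gcongr) (by linarith)

lemma MH.tendsto_Fm (h : MH α U g D x ρ s₀ M) {φ : ℕ → ℂ → ℂ} (hφ : ∀ n, ContDiff ℝ ∞ (φ n))
    (hl : Tendsto (fun n => ∫ z in closedBall x (ρ + s₀), ‖φ n z - g z‖) atTop (𝓝 0))
    {y : ℂ} (hy : y ∈ ball x ρ) {s : ℝ} (hs : 0 < s) (hs0 : s ≤ s₀) :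
    Tendsto (fun n => Fm (φ n) y s) atTop (𝓝 (Fm g y s)) := by
  simp only [Fm_eq _ _ hs]
  refine Tendsto.const_smul ?_ _
  rw [tendsto_iff_norm_sub_tendsto_zero]
  refine squeeze_zero (fun _ => norm_nonneg _) (fun n => ?_) hl
  have hg := integrableOn_of_memLp2 (isCompact_closedBall _ _) h.memg
  have hφi : IntegrableOn (φ n) (closedBall x (ρ + s₀)) :=
    integrableOn_cont (hφ n).continuous (isCompact_closedBall _ _)
  have hsub := cball_sub hy hs0
  rw [← integral_sub (hφi.mono_set hsub) (hg.mono_set hsub)]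
  refine (norm_integral_le_integral_norm _).trans ?_
  exact setIntegral_mono_set (hφi.sub hg).norm (Eventually.of_forall fun _ => norm_nonneg _)
    (LE.le.eventuallyLE hsub)

lemma MH.core (h : MH α U g D x ρ s₀ M) {y₀ y₁ : ℂ} (hy₀ : y₀ ∈ ball x ρ) (hy₁ : y₁ ∈ ball x ρ)
    {r₀ r₁ m : ℝ} (hm : 0 < m) (h0 : m ≤ r₀) (h1 : m ≤ r₁) (h0' : r₀ ≤ s₀) (h1' : r₁ ≤ s₀) :
    ‖Fm g y₁ r₁ - Fm g y₀ r₀‖ ≤
      (‖y₁ - y₀‖ + |r₁ - r₀|) * (Real.sqrt Real.pi * M * (m⁻¹ * (m / s₀) ^ α)) := by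
  obtain ⟨φ, hφ, hl, hlD⟩ := h.sob.approx _ h.sub (isCompact_closedBall _ _)
  have hl1 := (memLp_of_approx (isCompact_closedBall _ _)
    (h.sob.meas.mono_measure (Measure.restrict_mono_set _ h.sub))
    (fun n => (hφ n).continuous) hl).2
  have hl2 := (memLp_of_approx (isCompact_closedBall _ _)
    (h.sob.measD.mono_measure (Measure.restrict_mono_set _ h.sub))
    (fun n => (hφ n).continuous_fderiv (by simp)) hlD).2
  have hD := integrableOn_of_memLp2 (isCompact_closedBall _ _) h.memD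
  set e : ℕ → ℝ := fun n => ∫ z in closedBall x (ρ + s₀), ‖fderiv ℝ (φ n) z - D z‖ with he
  have hb : ∀ n, ‖Fm (φ n) y₁ r₁ - Fm (φ n) y₀ r₀‖ ≤ (‖y₁ - y₀‖ + |r₁ - r₀|) *
      (Real.sqrt Real.pi * M * (m⁻¹ * (m / s₀) ^ α) + (m ^ 2)⁻¹ * e n) := by
    intro n
    refine norm_Fm_sub_le (hφ n) y₀ y₁ fun t ht => ?_
    have hp : y₀ + t • (y₁ - y₀) ∈ ball x ρ := by
      have := (convex_ball x ρ) hy₀ hy₁ (sub_nonneg.2 ht.2) ht.1 (by ring)
      convert this using 1
      simp only [smul_sub, sub_smul, one_smul]; ring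
    set s := r₀ + t * (r₁ - r₀) with hs
    have hms : m ≤ s := by nlinarith [ht.1, ht.2]
    have hs1 : s ≤ s₀ := by nlinarith [ht.1, ht.2]
    have hspos : 0 < s := hm.trans_le hms
    have hsub := cball_sub hp hs1
    have hcd : Continuous (fderiv ℝ (φ n)) := (hφ n).continuous_fderiv (by simp)
    have hφi : IntegrableOn (fderiv ℝ (φ n)) (closedBall x (ρ + s₀)) :=
      integrableOn_cont hcd (isCompact_closedBall _ _)
    rw [Fm_eq _ _ hspos, smul_eq_mul]
    have i1 : ∫ z in closedBall (y₀ + t • (y₁ - y₀)) s, ‖fderiv ℝ (φ n) z‖ ≤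
        Real.sqrt Real.pi * s * (M * (s / s₀) ^ α) + e n := by
      calc ∫ z in closedBall (y₀ + t • (y₁ - y₀)) s, ‖fderiv ℝ (φ n) z‖
          ≤ ∫ z in closedBall (y₀ + t • (y₁ - y₀)) s, (‖D z‖ + ‖fderiv ℝ (φ n) z - D z‖) := by
            refine integral_mono (hφi.mono_set hsub).norm
              ((hD.mono_set hsub).norm.add ((hφi.sub hD).mono_set hsub).norm) fun z => ?_
            have := norm_add_le (D z) (fderiv ℝ (φ n) z - D z)
            simpa using this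
        _ = (∫ z in closedBall (y₀ + t • (y₁ - y₀)) s, ‖D z‖) +
            ∫ z in closedBall (y₀ + t • (y₁ - y₀)) s, ‖fderiv ℝ (φ n) z - D z‖ :=
            integral_add (hD.mono_set hsub).norm ((hφi.sub hD).mono_set hsub).norm
        _ ≤ _ := by
            refine add_le_add (h.cs hp hspos hs1) ?_
            exact setIntegral_mono_set (hφi.sub hD).norm
              (Eventually.of_forall fun _ => norm_nonneg _) (LE.le.eventuallyLE hsub)
    have hen : 0 ≤ e n := integral_nonneg fun _ => norm_nonneg _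
    calc (s ^ 2)⁻¹ * ∫ z in closedBall (y₀ + t • (y₁ - y₀)) s, ‖fderiv ℝ (φ n) z‖
        ≤ (s ^ 2)⁻¹ * (Real.sqrt Real.pi * s * (M * (s / s₀) ^ α) + e n) := by gcongr
      _ = Real.sqrt Real.pi * M * (s⁻¹ * (s / s₀) ^ α) + (s ^ 2)⁻¹ * e n := by
          field_simp
      _ ≤ _ := by
          have := mono_aux h.α1 h.s0 hm hms
          have hM := h.M0
          gcongr
  have hL := ((h.tendsto_Fm hφ hl1 hy₁ (hm.trans_le h1) h1').sub
    (h.tendsto_Fm hφ hl1 hy₀ (hm.trans_le h0) h0')).norm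
  have hR : Tendsto (fun n => (‖y₁ - y₀‖ + |r₁ - r₀|) *
      (Real.sqrt Real.pi * M * (m⁻¹ * (m / s₀) ^ α) + (m ^ 2)⁻¹ * e n)) atTop
      (𝓝 ((‖y₁ - y₀‖ + |r₁ - r₀|) *
      (Real.sqrt Real.pi * M * (m⁻¹ * (m / s₀) ^ α) + (m ^ 2)⁻¹ * 0))) :=
    ((hl2.const_mul _).const_add _).const_mul _
  have := le_of_tendsto_of_tendsto' hL hR hb
  simpa using this

/-- The limit of the rescaled averages. -/
noncomputable def Lm (g : ℂ → ℂ) (s₀ : ℝ) (y : ℂ) : ℂ :=
  limUnder atTop (fun k : ℕ => Fm g y (s₀ / 2 ^ k))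

lemma MH.q (h : MH α U g D x ρ s₀ M) :
    (1 / 2 : ℝ) ≤ (1 / 2 : ℝ) ^ α ∧ (1 / 2 : ℝ) ^ α < 1 := by
  constructor
  · have := Real.rpow_le_rpow_of_exponent_ge (x := (1 / 2 : ℝ)) (by norm_num) (by norm_num) h.α1
    simpa using this
  · exact Real.rpow_lt_one (by norm_num) (by norm_num) h.α0

lemma pow_q (k : ℕ) (hs0 : 0 < s₀) : ((s₀ / 2 ^ k) / s₀) ^ α = ((1 / 2 : ℝ) ^ α) ^ k := by
  have : (s₀ / 2 ^ k) / s₀ = (1 / 2 : ℝ) ^ k := by
    field_simp
    rw [one_div, inv_pow, mul_inv_cancel₀ (by positivity)]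
  rw [this, ← Real.rpow_natCast, ← Real.rpow_natCast, ← Real.rpow_mul (by norm_num),
    ← Real.rpow_mul (by norm_num), mul_comm]

lemma MH.step (h : MH α U g D x ρ s₀ M) {y : ℂ} (hy : y ∈ ball x ρ) (k : ℕ) :
    dist (Fm g y (s₀ / 2 ^ k)) (Fm g y (s₀ / 2 ^ (k + 1))) ≤
      (Real.sqrt Real.pi * M * (1 / 2 : ℝ) ^ α) * ((1 / 2 : ℝ) ^ α) ^ k := by
  have hs := h.s0
  have h1 : (0 : ℝ) < s₀ / 2 ^ (k + 1) := by positivity
  have h2 : s₀ / 2 ^ (k + 1) ≤ s₀ / 2 ^ k := by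
    gcongr
    · norm_num
    · omega
  have h3 : s₀ / 2 ^ k ≤ s₀ := div_le_self hs.le (one_le_pow₀ (by norm_num))
  have := h.core hy hy h1 le_rfl h2 (h2.trans h3) h3
  rw [dist_eq_norm]
  refine this.trans (le_of_eq ?_)
  rw [pow_q _ hs, sub_self, norm_zero, zero_add]
  have h4 : s₀ / 2 ^ k - s₀ / 2 ^ (k + 1) = s₀ / 2 ^ (k + 1) := by
    rw [pow_succ]; field_simp; ring
  rw [h4, abs_of_pos h1]
  field_simp
  ring

lemma MH.tendsto (h : MH α U g D x ρ s₀ M) {y : ℂ} (hy : y ∈ ball x ρ) :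
    Tendsto (fun k : ℕ => Fm g y (s₀ / 2 ^ k)) atTop (𝓝 (Lm g s₀ y)) :=
  CauchySeq.tendsto_limUnder (cauchySeq_of_le_geometric _ _ h.q.2 (h.step hy))

lemma MH.dist_lim (h : MH α U g D x ρ s₀ M) {y : ℂ} (hy : y ∈ ball x ρ) (k : ℕ) :
    ‖Fm g y (s₀ / 2 ^ k) - Lm g s₀ y‖ ≤
      Real.sqrt Real.pi * M * ((1 / 2 : ℝ) ^ α) ^ (k + 1) / (1 - (1 / 2 : ℝ) ^ α) := by
  have := dist_le_of_le_geometric_of_tendsto _ _ h.q.2 (h.step hy) (h.tendsto hy) k
  rw [dist_eq_norm] at this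
  refine this.trans (le_of_eq ?_)
  rw [pow_succ]; ring

lemma MH.holder (h : MH α U g D x ρ s₀ M) {y z : ℂ} (hy : y ∈ ball x ρ) (hz : z ∈ ball x ρ)
    (hyz : ‖y - z‖ ≤ s₀) :
    ‖Lm g s₀ y - Lm g s₀ z‖ ≤ Real.sqrt Real.pi * M * (2 / (1 - (1 / 2 : ℝ) ^ α) + 2) *
      (‖y - z‖ / s₀) ^ α := by
  have hs := h.s0
  obtain ⟨q1, q2⟩ := h.q
  rcases eq_or_ne y z with rfl | hne
  · simp only [sub_self, norm_zero, zero_div]
    rw [Real.zero_rpow h.α0.ne']; simp
  set d := ‖y - z‖ with hd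
  have hd0 : 0 < d := norm_pos_iff.2 (sub_ne_zero.2 hne)
  obtain ⟨k, hk1, hk2⟩ : ∃ k : ℕ, s₀ / 2 ^ (k + 1) < d ∧ d ≤ s₀ / 2 ^ k := by
    have hex : ∃ k : ℕ, s₀ / 2 ^ (k + 1) < d := by
      have : Tendsto (fun k : ℕ => s₀ * (1 / 2 : ℝ) ^ (k + 1)) atTop (𝓝 (s₀ * 0)) :=
        (((tendsto_pow_atTop_nhds_zero_of_lt_one (by norm_num) (by norm_num)).comp
          (tendsto_add_atTop_nat 1))).const_mul s₀
      rw [mul_zero] at this
      obtain ⟨k, hk⟩ := (this.eventually (gt_mem_nhds hd0)).exists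
      refine ⟨k, ?_⟩
      rw [one_div, inv_pow] at hk
      exact hk
    classical
    refine ⟨Nat.find hex, Nat.find_spec hex, ?_⟩
    rcases Nat.eq_zero_or_pos (Nat.find hex) with h0 | h0
    · rw [h0]; simpa using hyz
    · have := Nat.find_min hex (m := Nat.find hex - 1) (by omega)
      rw [not_lt] at this
      rwa [Nat.sub_add_cancel h0] at this
  set s := s₀ / 2 ^ k with hsd
  have hspos : 0 < s := by positivity
  have hss : s ≤ s₀ := div_le_self hs.le (one_le_pow₀ (by norm_num))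
  set q := (1 / 2 : ℝ) ^ α with hq
  have hM := h.M0
  have hqk : q ^ (k + 1) ≤ (d / s₀) ^ α := by
    rw [hq, ← pow_q (k + 1) hs]
    have := h.α0
    exact Real.rpow_le_rpow (by positivity) (by gcongr) h.α0.le
  have e1 := h.dist_lim hy k
  have e2 := h.dist_lim hz k
  have e3 := h.core hz hy hspos le_rfl le_rfl hss hss
  rw [sub_self, abs_zero, add_zero, ← hd] at e3
  have e3' : ‖Fm g y s - Fm g z s‖ ≤ Real.sqrt Real.pi * M * q ^ k := by
    refine e3.trans ?_
    rw [hsd, pow_q k hs, ← hq, ← hsd]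
    calc d * (Real.sqrt Real.pi * M * (s⁻¹ * q ^ k))
        ≤ s * (Real.sqrt Real.pi * M * (s⁻¹ * q ^ k)) := by gcongr
      _ = _ := by field_simp
  have hqq : q ^ k ≤ 2 * q ^ (k + 1) := by
    rw [pow_succ]
    nlinarith [pow_nonneg (show (0 : ℝ) ≤ q by linarith) k]
  have tri : ‖Lm g s₀ y - Lm g s₀ z‖ ≤ ‖Fm g y s - Lm g s₀ y‖ + ‖Fm g y s - Fm g z s‖ +
      ‖Fm g z s - Lm g s₀ z‖ := by
    have : Lm g s₀ y - Lm g s₀ z = -(Fm g y s - Lm g s₀ y) + (Fm g y s - Fm g z s) +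
      (Fm g z s - Lm g s₀ z) := by ring
    rw [this]
    refine (norm_add₃_le).trans ?_
    rw [norm_neg]
  have h1q : 0 < 1 - q := by linarith
  calc ‖Lm g s₀ y - Lm g s₀ z‖ ≤ _ := tri
    _ ≤ Real.sqrt Real.pi * M * q ^ (k + 1) / (1 - q) + Real.sqrt Real.pi * M * q ^ k +
        Real.sqrt Real.pi * M * q ^ (k + 1) / (1 - q) := by gcongr
    _ ≤ Real.sqrt Real.pi * M * q ^ (k + 1) / (1 - q) +
        Real.sqrt Real.pi * M * (2 * q ^ (k + 1)) +
        Real.sqrt Real.pi * M * q ^ (k + 1) / (1 - q) := by gcongr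
    _ = Real.sqrt Real.pi * M * (2 / (1 - q) + 2) * q ^ (k + 1) := by ring
    _ ≤ _ := by gcongr

lemma MH.ae_eq (h : MH α U g D x ρ s₀ M) :
    ∀ᵐ z ∂(volume.restrict (ball x ρ)), Lm g s₀ z = Real.pi • g z := by
  have hs := h.s0
  set K := closedBall x (ρ + s₀) with hK
  have hg : IntegrableOn g K := integrableOn_of_memLp2 (isCompact_closedBall _ _) h.memg
  have hf : Integrable (K.indicator g) := (integrable_indicator_iff measurableSet_closedBall).2 hg
  have hL := IsUnifLocDoublingMeasure.ae_tendsto_average (μ := (volume : Measure ℂ))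
    hf.locallyIntegrable 1
  rw [ae_restrict_iff' measurableSet_ball]
  filter_upwards [hL] with z hz hzb
  have hlim : Tendsto (fun k : ℕ => s₀ / 2 ^ k) atTop (𝓝[>] 0) := by
    refine tendsto_nhdsWithin_iff.2 ⟨?_, Eventually.of_forall fun k => ?_⟩
    · have : Tendsto (fun k : ℕ => s₀ * (1 / 2 : ℝ) ^ k) atTop (𝓝 (s₀ * 0)) :=
        ((tendsto_pow_atTop_nhds_zero_of_lt_one (by norm_num) (by norm_num))).const_mul s₀
      rw [mul_zero] at this
      refine this.congr fun k => ?_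
      rw [one_div, inv_pow]; rfl
    · have : 0 < s₀ / 2 ^ k := by positivity
      exact this
  have h1 := hz (fun _ : ℕ => z) (fun k => s₀ / 2 ^ k) hlim (Eventually.of_forall fun k => by
    rw [mem_closedBall, dist_self]; positivity)
  have hzK : z ∈ K := by
    rw [hK, mem_closedBall]; rw [mem_ball] at hzb; linarith
  rw [indicator_of_mem hzK] at h1
  have h2 : ∀ k : ℕ, Real.pi • ⨍ y in closedBall z (s₀ / 2 ^ k), K.indicator g y =
      Fm g z (s₀ / 2 ^ k) := by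
    intro k
    have hpos : 0 < s₀ / 2 ^ k := by positivity
    have hss : s₀ / 2 ^ k ≤ s₀ := div_le_self hs.le (one_le_pow₀ (by norm_num))
    rw [setAverage_eq, vol_cball _ hpos.le, Fm_eq _ _ hpos, smul_smul]
    congr 1
    · have := Real.pi_pos
      field_simp
    · refine setIntegral_congr_fun measurableSet_closedBall fun w hw => ?_
      exact indicator_of_mem (cball_sub hzb hss hw) g
  have h3 := h1.const_smul Real.pi
  simp only [h2] at h3
  exact tendsto_nhds_unique (h.tendsto hzb) h3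

end core

/-- C1. Morrey: power growth of the Dirichlet integral gives a Hölder continuous
representative. -/
theorem morrey (α : ℝ) (hα : 0 < α) (hα1 : α ≤ 1) : ∃ C : ℝ, 0 < C ∧
    ∀ (U : Set ℂ) (g : ℂ → ℂ) (D : ℂ → ℂ →L[ℝ] ℂ) (x : ℂ) (ρ s₀ M : ℝ), IsOpen U → Sob 2 U g D →
      0 < ρ → 0 < s₀ → 0 ≤ M → closedBall x (ρ + s₀) ⊆ U →
      (∀ y ∈ ball x ρ, ∀ s, 0 < s → s ≤ s₀ →
        ∫ z in ball y s, ‖D z‖ ^ 2 ≤ M ^ 2 * (s / s₀) ^ (2 * α)) →
      ∃ g' : ℂ → ℂ, ContinuousOn g' (ball x ρ) ∧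
        (∀ᵐ z ∂(volume.restrict (ball x ρ)), g z = g' z) ∧
        (∀ y ∈ ball x ρ, ∀ z ∈ ball x ρ, ‖y - z‖ ≤ s₀ →
          ‖g' y - g' z‖ ≤ C * M * (‖y - z‖ / s₀) ^ α) ∧
        (∀ y ∈ ball x ρ, ‖g' y - ⨍ z in ball y s₀, g z‖ ≤ C * M) := by
  set q := (1 / 2 : ℝ) ^ α with hq
  have q2 : q < 1 := Real.rpow_lt_one (by norm_num) (by norm_num) hα
  have q0 : 0 < q := Real.rpow_pos_of_pos (by norm_num) _
  have h1q : 0 < 1 - q := by linarith
  have hπ := Real.pi_pos
  have hsπ : Real.pi⁻¹ * Real.sqrt Real.pi ≤ 1 := by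
    rw [inv_mul_le_iff₀ hπ, mul_one]
    refine Real.sqrt_le_iff.2 ⟨hπ.le, ?_⟩
    nlinarith [Real.pi_gt_three]
  refine ⟨2 / (1 - q) + 2, by positivity, ?_⟩
  intro U g D x ρ s₀ M hU hsob hρ hs hM hsub hgr
  have h : MH α U g D x ρ s₀ M := ⟨hα, hα1, hsob, hs, hM, hsub, hgr⟩
  have H : ∀ y ∈ ball x ρ, ∀ z ∈ ball x ρ, ‖y - z‖ ≤ s₀ →
      ‖Real.pi⁻¹ • Lm g s₀ y - Real.pi⁻¹ • Lm g s₀ z‖ ≤
        (2 / (1 - q) + 2) * M * (‖y - z‖ / s₀) ^ α := by
    intro y hy z hz hyz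
    rw [← smul_sub, norm_smul, Real.norm_of_nonneg (inv_nonneg.2 hπ.le)]
    have := h.holder hy hz hyz
    calc _ ≤ Real.pi⁻¹ * (Real.sqrt Real.pi * M * (2 / (1 - q) + 2) * (‖y - z‖ / s₀) ^ α) := by
          gcongr
      _ = (Real.pi⁻¹ * Real.sqrt Real.pi) * ((2 / (1 - q) + 2) * M * (‖y - z‖ / s₀) ^ α) := by
          ring
      _ ≤ 1 * ((2 / (1 - q) + 2) * M * (‖y - z‖ / s₀) ^ α) := by gcongr
      _ = _ := one_mul _
  refine ⟨fun y => Real.pi⁻¹ • Lm g s₀ y, ?_, ?_, H, ?_⟩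
  · intro y hy
    refine ContinuousAt.continuousWithinAt ?_
    rw [ContinuousAt, tendsto_iff_norm_sub_tendsto_zero]
    have h0 : Tendsto (fun z : ℂ => (2 / (1 - q) + 2) * M * (‖z - y‖ / s₀) ^ α) (𝓝 y) (𝓝 0) := by
      have h1 : Tendsto (fun z : ℂ => ‖z - y‖ / s₀) (𝓝 y) (𝓝 0) := by
        have : ContinuousAt (fun z : ℂ => ‖z - y‖ / s₀) y := by fun_prop
        simpa [ContinuousAt] using this
      have h2 := (h1.rpow_const (p := α) (Or.inr hα.le)).const_mul ((2 / (1 - q) + 2) * M)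
      rwa [Real.zero_rpow hα.ne', mul_zero] at h2
    refine squeeze_zero' (Eventually.of_forall fun _ => norm_nonneg _) ?_ h0
    filter_upwards [isOpen_ball.mem_nhds hy, ball_mem_nhds y hs] with z hz hz'
    refine H z hz y hy ?_
    rw [← dist_eq_norm]; exact (mem_ball.1 hz').le
  · filter_upwards [h.ae_eq] with z hz
    rw [hz, smul_smul, inv_mul_cancel₀ hπ.ne', one_smul]
  · intro y hy
    have e : ⨍ z in ball y s₀, g z = Real.pi⁻¹ • Fm g y (s₀ / 2 ^ 0) := by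
      have hb : volume.restrict (ball y s₀) = volume.restrict (closedBall y s₀) :=
        Measure.restrict_congr_set (ball_ae_cball y s₀)
      rw [hb, setAverage_eq, vol_cball _ hs.le, pow_zero, div_one, Fm_eq _ _ hs, smul_smul]
      congr 1
      rw [mul_inv]
    rw [e, ← smul_sub, norm_smul, Real.norm_of_nonneg (inv_nonneg.2 hπ.le), norm_sub_rev]
    have h1 := h.dist_lim hy 0
    rw [zero_add, pow_one, ← hq] at h1
    have h2 : q / (1 - q) ≤ 2 / (1 - q) + 2 := by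
      have : q / (1 - q) ≤ 2 / (1 - q) := by gcongr; linarith
      linarith
    calc _ ≤ Real.pi⁻¹ * (Real.sqrt Real.pi * M * q / (1 - q)) := by gcongr
      _ = (Real.pi⁻¹ * Real.sqrt Real.pi) * (q / (1 - q) * M) := by ring
      _ ≤ 1 * ((2 / (1 - q) + 2) * M) := by gcongr
      _ = _ := one_mul _

end Pool.Agent.H80.PH
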